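import Pool.Agent.H.MP_8bcfe8_an.Gen

open Filter Topology MeasureTheory Set RealInnerProductSpace

namespace Pool.Agent.Results.MP_8bcfe8_an.Antitone

open Pool.Agent.H.MP_38ba9c_an Pool.Agent.H.MP_8bcfe8_an

variable {H : Type*} [NormedAddCommGroup H] [InnerProductSpace ℝ H]

/-- The norm of the square root of A applied to x: the supremum of |⟪x, A φ⟫| over φ in D(A) with
⟪A φ, φ⟫ ≤ 1. It is finite exactly on the domain of the square root of A. -/
noncomputable def halfNorm (A : H →ₗ.[ℝ] H) (x : H) : ENNReal :=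
  ⨆ (φ : A.domain) (_ : ⟪A φ, φ⟫ ≤ 1), ‖⟪x, A φ⟫‖ₑ

/-- f is locally integrable on (0, ∞) and u, with velocity v, is a weak solution of
u'' + c u' + A u = f that is C^1 in H and continuous in the domain of the square root of A. -/
structure Sol (A : H →ₗ.[ℝ] H) (c : ℝ) (f u v : ℝ → H) : Prop where
  loc : ∀ s t, 0 < s → 0 < t → IntervalIntegrable f volume s t
  du : ∀ t, 0 < t → HasDerivAt u (v t) t
  cv : ContinuousOn v (Ioi 0)
  mem : ∀ t, 0 < t → halfNorm A (u t) < ⊤
  cu : ∀ t, 0 < t → Tendsto (fun s => halfNorm A (u s - u t)) (𝓝 t) (𝓝 0)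
  eqn : ∀ (φ : A.domain) s t, 0 < s → 0 < t →
    ⟪v t - v s, φ⟫ + c * ⟪u t - u s, φ⟫ + ∫ r in s..t, ⟪u r, A φ⟫ = ∫ r in s..t, ⟪f r, φ⟫

/-- The constants K ≥ 0 with limsup ‖u'‖ ≤ K limsup ‖f‖ for all eventually bounded f and all
solutions u. -/
def Adm (A : H →ₗ.[ℝ] H) (c : ℝ) : Set ℝ :=
  {K | 0 ≤ K ∧ ∀ f u v, Sol A c f u v → limsup (fun t => ‖f t‖ₑ) atTop < ⊤ →
    limsup (fun t => ‖v t‖ₑ) atTop ≤ ENNReal.ofReal K * limsup (fun t => ‖f t‖ₑ) atTop}

/-- The constant K(A, c). -/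
noncomputable def K (A : H →ₗ.[ℝ] H) (c : ℝ) : ℝ := sInf (Adm A c)

lemma mulE {E : ENNReal} (hE : E < ⊤) {k : ℝ} (hk : 0 ≤ k) :
    ENNReal.ofReal k * E = ENNReal.ofReal (k * E.toReal) := by
  rw [ENNReal.ofReal_mul hk, ENNReal.ofReal_toReal hE.ne]

lemma leOf {a E : ENNReal} (hE : E < ⊤) {k : ℝ} (hk : 0 ≤ k)
    (h : ∀ η, 0 < η → a ≤ ENNReal.ofReal (k * E.toReal + η)) : a ≤ ENNReal.ofReal k * E :=
  ENNReal.le_of_forall_pos_le_add fun ε hε _ => (h ε hε).trans (by
    rw [mulE hE hk, ENNReal.ofReal_add (by positivity) ε.coe_nonneg, ENNReal.ofReal_coe_nnreal])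

omit [InnerProductSpace ℝ H] in
lemma evOf {g : ℝ → H} {M : ℝ} (h : limsup (fun t => ‖g t‖ₑ) atTop < ENNReal.ofReal M) :
    ∀ᶠ t in atTop, ‖g t‖ ≤ M :=
  (eventually_lt_of_limsup_lt h).mono fun t ht => by
    rw [← ofReal_norm] at ht
    exact ((ENNReal.ofReal_lt_ofReal_iff_of_nonneg (norm_nonneg _)).1 ht).le

omit [InnerProductSpace ℝ H] in
lemma limOf {g : ℝ → H} {M : ℝ} (h : ∀ᶠ t in atTop, ‖g t‖ ≤ M) :
    limsup (fun t => ‖g t‖ₑ) atTop ≤ ENNReal.ofReal M :=
  limsup_le_of_le (h := h.mono fun t ht => by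
    rw [← ofReal_norm]; exact ENNReal.ofReal_le_ofReal ht)

variable {A : H →ₗ.[ℝ] H} {B : H →L[ℝ] H} {b c k : ℝ}

lemma half (hS : ∀ y, ∃ x : A.domain, A x = y ∧ B y = x) {u : H}
    (hu : halfNorm A u < ⊤) (x : H) (r : ℝ) (r0 : 0 ≤ r) (h : ⟪x, B x⟫ ≤ r ^ 2) :
    |⟪u, x⟫| ≤ (halfNorm A u).toReal * r := by
  refine le_of_forall_pos_le_add fun η hη => ?_
  obtain ⟨e, e0, -, he⟩ := small (halfNorm A u).toReal hη
  have p : 0 < r + e := by linarith
  obtain ⟨φ, h1, h2⟩ := hS ((1 / (r + e)) • x)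
  have h3 : ‖⟪u, A φ⟫‖ₑ ≤ halfNorm A u := le_iSup₂_of_le φ (by
    rw [h1, ← h2, map_smul, real_inner_smul_left, real_inner_smul_right, ← mul_assoc,
      div_mul_div_comm, one_mul, one_div_mul_eq_div, div_le_one (by positivity)]
    nlinarith) le_rfl
  rw [← ofReal_norm, ENNReal.ofReal_le_iff_le_toReal hu.ne, h1, real_inner_smul_right,
    norm_mul, Real.norm_of_nonneg (by positivity), one_div_mul_eq_div, div_le_iff₀ p] at h3
  exact h3.trans (by linarith [he e e0.le le_rfl])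

lemma half' (I : Inv B b) (hB : ∀ x : A.domain, B (A x) = x) (a : H) :
    halfNorm A (B a) ≤ ENNReal.ofReal (‖a‖ * (1 + 1 / b)) := iSup₂_le fun φ hφ => by
  have b0 := I.b0
  rw [← ofReal_norm, I.sym, hB]
  refine ENNReal.ofReal_le_ofReal ((norm_inner_le_norm _ _).trans
    (mul_le_mul_of_nonneg_left ?_ (norm_nonneg _)))
  have := I.co (A φ)
  rw [hB] at this
  rw [← sub_le_iff_le_add', le_div_iff₀ b0]
  nlinarith [sq_nonneg (‖(φ : H)‖ - 1), norm_nonneg (φ : H)]

variable [CompleteSpace H]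

lemma up (I : Inv B b) (hS : ∀ y, ∃ x : A.domain, A x = y ∧ B y = x) (hc : 0 < c) (k0 : 0 ≤ k)
    (G : Good B (b / (1 + 2 * b)) c k) : k ∈ Adm A c := by
  refine ⟨k0, fun f u v S hE => leOf hE k0 fun η hη => limOf ?_⟩
  obtain ⟨ρ, ρ0, hρ⟩ := upperG I hc G
  obtain ⟨e, e0, -, he⟩ := small k (half_pos hη)
  obtain ⟨T, hT⟩ := eventually_atTop.1 ((evOf ((ENNReal.lt_ofReal_iff_toReal_lt hE.ne).2
    (lt_add_of_pos_right _ e0))).and (eventually_gt_atTop 0))
  have T0 := (hT T le_rfl).2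
  have h1 := hρ T0 (by positivity) S.loc S.du S.cv (fun s t hs ht => by
    have sub : uIcc s t ⊆ Ioi 0 := fun x hx => (lt_min hs ht).trans_le hx.1
    have cu : ContinuousOn u (uIcc s t) :=
      fun x hx => (S.du x (sub hx)).continuousAt.continuousWithinAt
    have iu := cu.intervalIntegrable (μ := volume)
    have iv := (S.cv.mono sub).intervalIntegrable (μ := volume)
    have i1 := S.loc s t hs ht
    have iB : ∀ {g : ℝ → H}, IntervalIntegrable g volume s t →
        IntervalIntegrable (fun r => B (g r)) volume s t :=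
      fun h => ⟨B.integrable_comp h.1, B.integrable_comp h.2⟩
    have i2 : IntervalIntegrable (fun r => c • B (v r)) volume s t := (iB iv).smul c
    rw [intervalIntegral.integral_sub ((iB i1).sub i2) iu,
      intervalIntegral.integral_sub (iB i1) i2, intervalIntegral.integral_smul,
      B.intervalIntegral_comp_comm i1, B.intervalIntegral_comp_comm iv,
      intervalIntegral.integral_eq_sub_of_hasDerivAt (fun x hx => S.du x (sub hx)) iv]
    refine ext_inner_left ℝ fun y => ?_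
    obtain ⟨φ, h1, h2⟩ := hS y
    have := S.eqn φ s t hs ht
    simp only [real_inner_comm (A φ), real_inner_comm (φ : H)] at this
    rw [show ∫ r in s..t, ⟪A φ, u r⟫ = _ from (innerSL ℝ (A φ)).intervalIntegral_comp_comm iu,
      show ∫ r in s..t, ⟪(φ : H), f r⟫ = _ from
        (innerSL ℝ (φ : H)).intervalIntegral_comp_comm i1, h1] at this
    simp only [inner_sub_right, real_inner_smul_right, ← I.sym, h2, innerSL_apply_apply] at this ⊢
    linarith) (half hS (S.mem T T0)) fun s hs => (hT s hs).1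
  have l := (Real.tendsto_exp_neg_atTop_nhds_zero.comp ((tendsto_atTop_add_const_right _ (-T)
    tendsto_id).const_mul_atTop ρ0)).const_mul (2 * ‖v T‖ + |(halfNorm A (u T)).toReal|)
  rw [mul_zero] at l
  filter_upwards [l.eventually (gt_mem_nhds (half_pos hη)), eventually_ge_atTop T] with t h2 ht
  have h3 := h1 t ht
  rw [abs_of_nonneg k0, neg_mul, sub_eq_add_neg] at h3
  linarith [he e e0.le le_rfl, h2.le.trans_eq' (rfl : _ * Real.exp (-(ρ * (t + -T))) = _).symm]

lemma low (I : Inv B b) (hB : ∀ x : A.domain, B (A x) = x) (hc : 0 < c) (hk : k ∈ Adm A c) :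
    Good B (b / (1 + 2 * b)) c k := lowG I hc fun F a p M cF ca d1 d2 hM η hη => by
  have cp : Continuous p := continuous_iff_continuousAt.2 fun t => (d2 t).continuousAt
  have M0 : 0 ≤ M := (norm_nonneg _).trans (hM 0 le_rfl)
  have S : Sol A c F (fun t => B (a t)) p := ⟨fun _ _ _ _ => cF.intervalIntegrable _ _,
    fun t _ => d1 t, cp.continuousOn, fun t _ => (half' I hB _).trans_lt ENNReal.ofReal_lt_top,
    fun t _ => by
      have := ENNReal.tendsto_ofReal (((ca.tendsto t).sub_const (a t)).norm.mul_const (1 + 1 / b))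
      simp only [sub_self, norm_zero, zero_mul, ENNReal.ofReal_zero] at this
      exact tendsto_of_tendsto_of_tendsto_of_le_of_le tendsto_const_nhds this
        (fun _ => zero_le) fun s => by simpa only [map_sub] using half' I hB (a s - a t),
    fun φ s t _ _ => by
      have := intervalIntegral.integral_eq_sub_of_hasDerivAt (a := s) (b := t)
        (f := fun r => ⟪p r, φ⟫ + c * ⟪B (a r), φ⟫) (f' := fun r => ⟪F r, φ⟫ - ⟪a r, φ⟫)
        (fun r _ => HasDerivAt.congr_deriv (((d2 r).inner ℝ (hasDerivAt_const r (φ : H))).fun_add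
          (((d1 r).inner ℝ (hasDerivAt_const r (φ : H))).const_mul c)) (by
          simp only [inner_zero_right, inner_sub_left, real_inner_smul_left]; ring))
        (Continuous.intervalIntegrable (by fun_prop) _ _)
      rw [intervalIntegral.integral_sub (Continuous.intervalIntegrable (by fun_prop) _ _)
        (Continuous.intervalIntegrable (by fun_prop) _ _)] at this
      have e : ∀ r, ⟪B (a r), A φ⟫ = ⟪a r, φ⟫ := fun r => by rw [I.sym, hB]
      simp only [e, inner_sub_left]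
      linarith⟩
  have h1 := limOf ((eventually_ge_atTop 0).mono hM)
  refine evOf ((hk.2 _ _ _ S (h1.trans_lt ENNReal.ofReal_lt_top)).trans_lt
    ((mul_le_mul_right h1 _).trans_lt ?_))
  have := mul_nonneg hk.1 M0
  rw [← ENNReal.ofReal_mul hk.1, ENNReal.ofReal_lt_ofReal_iff (by linarith)]
  linarith

theorem result (H : Type*) [NormedAddCommGroup H] [InnerProductSpace ℝ H] [CompleteSpace H]
    (A : H →ₗ.[ℝ] H) (hA : IsSelfAdjoint A) (b : ℝ) (hb : 0 < b)
    (co : ∀ x : A.domain, b * ‖(x : H)‖ ^ 2 ≤ ⟪A x, x⟫) :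
    (∀ c, 0 < c → IsLeast (Adm A c) (K A c)) ∧
      ∀ c₁ c₂, 0 < c₁ → c₁ < c₂ → K A c₂ ≤ K A c₁ := by
  obtain ⟨B, I, hS, hB⟩ := inv hA hb co
  have β0 : 0 < b / (1 + 2 * b) := by positivity
  have least : ∀ c, 0 < c → IsLeast (Adm A c) (K A c) := fun c hc => by
    have k0 : 0 ≤ K A c := Real.sInf_nonneg fun _ h => h.1
    obtain ⟨k1, h0, h1⟩ := crude (B := B) β0 hc
    refine ⟨⟨k0, fun f u v S hE => leOf hE k0 fun η hη => ?_⟩,
      fun _ h => csInf_le ⟨0, fun _ h => h.1⟩ h⟩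
    obtain ⟨e, e0, -, he⟩ := small (limsup (fun t => ‖f t‖ₑ) atTop).toReal hη
    obtain ⟨k, hk, h⟩ := Real.lt_sInf_add_pos ⟨_, up I hS hc h0 h1⟩ e0
    refine (hk.2 f u v S hE).trans ?_
    rw [mulE hE hk.1]
    refine ENNReal.ofReal_le_ofReal
      ((mul_le_mul_of_nonneg_right h.le ENNReal.toReal_nonneg).trans ?_)
    rw [add_mul]
    exact add_le_add le_rfl (he e e0.le le_rfl)
  refine ⟨least, fun c₁ c₂ h1 h2 => (least c₂ (h1.trans h2)).2 ?_⟩
  exact up I hS (h1.trans h2) (least c₁ h1).1.1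
    ((low I hB h1 (least c₁ h1).1).mono β0 h1 h2.le)

end Pool.Agent.Results.MP_8bcfe8_an.Antitone
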